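import Pool.Agent.helper74.FD.SpecG

set_option autoImplicit false

open scoped MatrixGroups ContDiff Topology UpperHalfPlane ComplexConjugate
open UpperHalfPlane MeasureTheory Filter Set

namespace Pool.Agent.FD

open Pool.Agent.RS Pool.Agent.MS
open Pool.Agent.EN (XG MG mkX mkM fl pr)

theorem DEN_min (A : Finset SL(2, ℝ)) (ρ : SL(2, ℝ) → ℝ) (h : ∀ x, 0 < ρ x) : ∃ r : ℝ, 0 < r ∧ ∀ x ∈ A, r ≤ ρ x := by
  classical
  induction A using Finset.induction_on with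
  | empty => exact ⟨1, one_pos, fun x hx => absurd hx (Finset.notMem_empty x)⟩
  | insert a A _ ih =>
    obtain ⟨r, hr, h1⟩ := ih
    refine ⟨min r (ρ a), lt_min hr (h a), fun x hx => ?_⟩
    rcases Finset.mem_insert.1 hx with rfl | hx
    · exact min_le_right _ _
    · exact (min_le_left _ _).trans (h1 x hx)

theorem DEN_max (A : Finset SL(2, ℝ)) (f : SL(2, ℝ) → ℝ) : ∃ M : ℝ, 0 ≤ M ∧ ∀ x ∈ A, f x ≤ M := by
  classical
  induction A using Finset.induction_on with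
  | empty => exact ⟨0, le_rfl, fun x hx => absurd hx (Finset.notMem_empty x)⟩
  | insert a A _ ih =>
    obtain ⟨r, hr, h1⟩ := ih
    refine ⟨max r (f a), le_max_of_le_left hr, fun x hx => ?_⟩
    rcases Finset.mem_insert.1 hx with rfl | hx
    · exact le_max_right _ _
    · exact (h1 x hx).trans (le_max_left _ _)

theorem DEN_proof (hDB : DB_stmt) (hGLC : RS.GLC_stmt) : DEN_stmt := by
  intro Γ W hΓ hW hne hIv
  obtain ⟨-, -, hcpt, haM, -, hlM, -, -, -, -, haA, -, hlA, -, -, -, -, -, hla, -⟩ := hGLC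
  obtain ⟨K, hK, hcov⟩ := hΓ.cocompact
  have hK' : IsCompact {g : SL(2, ℝ) | g • I ∈ K} := hcpt K hK
  -- the local statement
  have hloc : ∀ g0 : SL(2, ℝ), ∃ (s t ρ : ℝ) (N : Set SL(2, ℝ)), 0 < ρ ∧ N ∈ 𝓝 g0 ∧
      ∀ g' ∈ N, ∀ s' : ℝ, |s' - s| ≤ ρ → g' * lM s' * aM t ∈ W := by
    intro g0
    obtain ⟨s, t, hst⟩ := hDB Γ W g0 hΓ hW hne hIv
    have hcont : Continuous fun q : SL(2, ℝ) × ℝ => q.1 * lM q.2 * aM t :=
      (continuous_fst.mul (hlM.comp continuous_snd)).mul continuous_const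
    have hmem : (fun q : SL(2, ℝ) × ℝ => q.1 * lM q.2 * aM t) ⁻¹' W ∈ 𝓝 (g0, s) :=
      hcont.continuousAt.preimage_mem_nhds (hW.mem_nhds hst)
    rw [nhds_prod_eq, Filter.mem_prod_iff] at hmem
    obtain ⟨N, hN, T, hT, hNT⟩ := hmem
    obtain ⟨ρ, hρ, hball⟩ := Metric.mem_nhds_iff.1 hT
    refine ⟨s, t, ρ / 2, N, by positivity, hN, fun g' hg' s' hs' => ?_⟩
    have h1 : s' ∈ T := by
      apply hball
      rw [Metric.mem_ball, Real.dist_eq]
      linarith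
    exact hNT (Set.mk_mem_prod hg' h1)
  choose s t ρ N hρ hN hNW using hloc
  obtain ⟨A, hA, hcovA⟩ := hK'.elim_nhds_subcover N fun x _ => hN x
  obtain ⟨ρ0, hρ0, hρA⟩ := DEN_min A ρ hρ
  obtain ⟨M1, hM1, hM1'⟩ := DEN_max A fun x => |s x|
  obtain ⟨M2, hM2, hM2'⟩ := DEN_max A fun x => |t x|
  obtain ⟨W1, hW1, hst⟩ : ∃ W1 : ℝ, 0 ≤ W1 ∧ ∀ g0 : SL(2, ℝ), ∃ s t : ℝ, |s| ≤ W1 ∧ |t| ≤ W1 ∧
      ∀ s' : ℝ, |s' - s| ≤ ρ0 → g0 * lM s' * aM t ∈ W := by
    refine ⟨M1 + M2, by positivity, fun g0 => ?_⟩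
    obtain ⟨γ, hγ⟩ := hcov (g0 • I)
    have hγ' : ((γ : SL(2, ℝ)) * g0) • I ∈ K := by
      rw [mul_smul]
      exact hγ
    have h2 := hcovA hγ'
    simp only [Set.mem_iUnion] at h2
    obtain ⟨x, hx, h3⟩ := h2
    refine ⟨s x, t x, ?_, ?_, fun s' hs' => ?_⟩
    · exact (hM1' x hx).trans (le_add_of_nonneg_right hM2)
    · exact (hM2' x hx).trans (le_add_of_nonneg_left hM1)
    · have h4 := hNW x _ h3 s' (hs'.trans (hρA x hx))
      rw [mul_assoc, mul_assoc] at h4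
      rw [mul_assoc]
      exact (hIv.1 γ _).1 h4
  -- the time `S`
  set S : ℝ := 4 * W1 with hS
  have hS0 : 0 ≤ S := by positivity
  have hexp : Real.exp (-S) * W1 ≤ 1 / 4 := by
    have h1 := Real.add_one_le_exp S
    have h2 : W1 ≤ 1 / 4 * Real.exp S := by linarith
    calc Real.exp (-S) * W1 ≤ Real.exp (-S) * (1 / 4 * Real.exp S) := mul_le_mul_of_nonneg_left h2 (Real.exp_pos _).le
      _ = 1 / 4 := by
        rw [Real.exp_neg]
        field_simp
  have hc0 : 0 < min (1 / 4 : ℝ) (Real.exp (-S) * ρ0) := lt_min (by norm_num) (by positivity)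
  refine ⟨S + W1, min (1 / 4) (Real.exp (-S) * ρ0), by positivity, hc0, min_le_left _ _, fun g => ?_⟩
  obtain ⟨s, t, hs, ht, hg⟩ := hst (g * lM (1 / 2) * aM S)
  have h1 : |Real.exp (-S) * s| ≤ 1 / 4 := by
    rw [abs_mul, abs_of_pos (Real.exp_pos _)]
    exact (mul_le_mul_of_nonneg_left hs (Real.exp_pos _).le).trans hexp
  have h2 := abs_le.1 h1
  have h3 := abs_le.1 ht
  have h4 := min_le_left (1 / 4 : ℝ) (Real.exp (-S) * ρ0)
  refine ⟨S + t, 1 / 2 + Real.exp (-S) * s, by linarith [h3.1], by linarith [h3.2], by linarith [h2.1], by linarith [h2.2],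
    fun v hv => ?_⟩
  have hv' : |v - (1 / 2 + Real.exp (-S) * s)| ≤ Real.exp (-S) * ρ0 := hv.trans (min_le_right _ _)
  have hes : Real.exp S * Real.exp (-S) = 1 := by
    rw [← Real.exp_add, add_neg_cancel, Real.exp_zero]
  have h5 : |Real.exp S * (v - 1 / 2) - s| ≤ ρ0 := by
    have e1 : Real.exp S * (v - 1 / 2) - s = Real.exp S * (v - (1 / 2 + Real.exp (-S) * s)) := by
      have : Real.exp S * (v - (1 / 2 + Real.exp (-S) * s)) = Real.exp S * (v - 1 / 2) - (Real.exp S * Real.exp (-S)) * s := by ring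
      rw [this, hes, one_mul]
    rw [e1, abs_mul, abs_of_pos (Real.exp_pos _)]
    calc Real.exp S * |v - (1 / 2 + Real.exp (-S) * s)| ≤ Real.exp S * (Real.exp (-S) * ρ0) :=
          mul_le_mul_of_nonneg_left hv' (Real.exp_pos _).le
      _ = ρ0 := by rw [← mul_assoc, hes, one_mul]
  have h6 := hg _ h5
  have e2 : lM v = lM (1 / 2) * lM (v - 1 / 2) := by
    rw [← hlA]
    congr 1
    ring
  have e3 : g * lM v * aM (S + t) = g * lM (1 / 2) * aM S * lM (Real.exp S * (v - 1 / 2)) * aM t := by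
    rw [e2, haA]
    have e4 := hla (v - 1 / 2) S
    calc g * (lM (1 / 2) * lM (v - 1 / 2)) * (aM S * aM t) = g * lM (1 / 2) * (lM (v - 1 / 2) * aM S) * aM t := by
          simp only [mul_assoc]
      _ = _ := by rw [e4]; simp only [mul_assoc]
  rw [e3]
  exact h6

end Pool.Agent.FD
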